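import Pool.Agent.Work.MP_cb6c95_nt.Lower

set_option autoImplicit false

namespace Pool.Agent.Results.MP_cb6c95_nt.CountingBarrier

open Finset Filter Topology

/-- Let `L(k)` be the least `N` such that no weighted count of differences excludes the
`k`-element subsets of `{1,…,N}`: for every weight `W ≥ 0` some such subset `A` has
`∑ W(d) r_A(d) ≤ ∑ W(d)`, where `r_A(d)` counts the pairs of elements of `A` at distance `d`
(a Sidon set has `r_A(d) ≤ 1`). Then `L(k) = k^2 - (4 √2 / 3 + o(1)) k^(3/2)`. -/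
theorem result :
    Tendsto (fun k : ℕ => ((k : ℝ) ^ 2 -
      ((sInf {N : ℕ | ∀ W : ℕ → ℝ, (∀ d, 0 ≤ W d) → ∃ A : Finset ℕ, A ⊆ Icc 1 N ∧ A.card = k ∧
        ∑ d ∈ Icc 1 N, W d * (((A.filter fun a => a + d ∈ A).card : ℕ) : ℝ) ≤
          ∑ d ∈ Icc 1 N, W d} : ℕ) : ℝ)) / (k : ℝ) ^ (3 / 2 : ℝ))
      atTop (𝓝 (4 * √2 / 3)) :=
  Pool.Agent.Work.MP_cb6c95_nt.lpLength_tendsto

end Pool.Agent.Results.MP_cb6c95_nt.CountingBarrier
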