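import Pool.Agent.Work.MP_cb6c95_nt.Upper

set_option autoImplicit false

namespace Pool.Agent.Results.MP_cb6c95_nt.RampBound

open Pool.Agent.Work.MP_cb6c95_nt

/-- Every Sidon set of `m` positive integers has an element at least
`(m - (2 √2 / 3) √m)^2 - 700`. -/
theorem result :
    ∀ A : Finset ℕ, A.Nonempty → (∀ a ∈ A, 0 < a) →
      (∀ a ∈ A, ∀ b ∈ A, ∀ x ∈ A, ∀ y ∈ A, a + b = x + y →
        (a = x ∧ b = y) ∨ (a = y ∧ b = x)) →
      ∃ a ∈ A, ((A.card : ℝ) - 2 * √2 / 3 * √(A.card : ℝ)) ^ 2 - 700 ≤ (a : ℝ) := by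
  intro A hne hpos hS
  refine ⟨A.max' hne, A.max'_mem hne, lower_bound (noCertificate_of_sidon ?_ hS)⟩
  intro a ha
  exact Finset.mem_Icc.2 ⟨hpos a ha, A.le_max' a ha⟩

end Pool.Agent.Results.MP_cb6c95_nt.RampBound
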